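import Pool.Agent.helper55.ZI.Spec2

/-!
Row TRE of project ZI (MP_337222_al): a node which does not branch gives two nonisomorphic simple
modules.
-/

set_option autoImplicit false

namespace Pool.Agent.helper43.ZI

open Pool.Agent.ZI

universe u

/-- The idempotent of a maximal left ideal of `S m` containing `1 - e`. -/
theorem TRE_idem {R : Type u} [Ring R] (S : ℕ → Subring R) (hss : SemisimpleChain R S)
    (e : R) (he : e * e = e) (m : ℕ) (L : Ideal (S m)) (hN : Node S e m L) :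
    ∃ f : R, f * f = f ∧ e * f = f ∧ f * e = f ∧ f ≠ 0 ∧ f ∈ S m ∧
      ∀ x ∈ L, (x : R) * f = 0 := by
  obtain ⟨hmax, hem, a0, ha0, ha0e⟩ := hN
  have := hss.ss m
  obtain ⟨K, hK⟩ := exists_isCompl L
  have h1 : (1 : S m) ∈ L ⊔ K := by rw [hK.sup_eq_top]; trivial
  obtain ⟨a, ha, b, hb, hab⟩ := Submodule.mem_sup.1 h1
  have hinf : ∀ x : S m, x ∈ L → x ∈ K → x = 0 := by
    intro x hx hx'
    have : x ∈ L ⊓ K := ⟨hx, hx'⟩
    rw [hK.inf_eq_bot] at this
    exact (Submodule.mem_bot (S m)).1 this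
  have hlb : ∀ l ∈ L, l * b = 0 := by
    intro l hl
    apply hinf
    · have h2 : l * b = l - l * a := by
        have h3 : l * (a + b) = l := by rw [hab, mul_one]
        rw [mul_add] at h3
        exact eq_sub_of_add_eq' h3
      rw [h2]
      exact sub_mem hl (L.mul_mem_left l ha)
    · exact K.mul_mem_left l hb
  have hbb : b * b = b := by
    have h2 : b - b * b = b * a := by
      have h3 : b * (a + b) = b := by rw [hab, mul_one]
      rw [mul_add] at h3
      exact (eq_sub_of_add_eq h3).symm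
    have h4 : b * a ∈ L := L.mul_mem_left b ha
    have h5 : b * a ∈ K := by
      rw [← h2]
      exact sub_mem hb (K.mul_mem_left b hb)
    have h6 := hinf _ h4 h5
    rw [h6] at h2
    exact (sub_eq_zero.1 h2).symm
  have hb0 : b ≠ 0 := by
    intro h0
    rw [h0, add_zero] at hab
    rw [hab] at ha
    exact hmax.ne_top ((Ideal.eq_top_iff_one L).2 ha)
  have hbbR : (b : R) * (b : R) = (b : R) := by
    have := congrArg (fun z : S m => (z : R)) hbb
    exact this
  have hebR : e * (b : R) = (b : R) := by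
    have h2 := congrArg (fun z : S m => (z : R)) (hlb a0 ha0)
    have h3 : (a0 : R) * (b : R) = 0 := h2
    rw [ha0e, sub_mul, one_mul] at h3
    exact (sub_eq_zero.1 h3).symm
  refine ⟨(b : R) * e, ?_, ?_, ?_, ?_, ?_, ?_⟩
  · calc (b : R) * e * ((b : R) * e) = (b : R) * (e * (b : R)) * e := by noncomm_ring
      _ = (b : R) * e := by rw [hebR, hbbR]
  · rw [← mul_assoc, hebR]
  · rw [mul_assoc, he]
  · intro h0
    apply hb0
    have h2 : (b : R) = 0 := by
      calc (b : R) = (b : R) * (e * (b : R)) := by rw [hebR, hbbR]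
        _ = (b : R) * e * (b : R) := by rw [mul_assoc]
        _ = 0 := by rw [h0, zero_mul]
    exact Subtype.ext h2
  · exact (S m).mul_mem b.2 hem
  · intro x hx
    have h2 := congrArg (fun z : S m => (z : R)) (hlb x hx)
    have h3 : (x : R) * (b : R) = 0 := h2
    rw [← mul_assoc, h3, zero_mul]

/-- Step (i): a node which does not branch. -/
theorem TRE_zero {R : Type u} [Ring R] (S : ℕ → Subring R) (hss : SemisimpleChain R S)
    (e : R) (m : ℕ) (L : Ideal (S m)) (hN : Node S e m L)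
    (hB : ¬ Branches S e m L) (f : R) (hef : e * f = f)
    (hfm : f ∈ S m) (hLf : ∀ x ∈ L, (x : R) * f = 0) (h x : R) (hhf : h * f = h)
    (hfh : f * h = h) (hhh : h * h = h) : h * x * (f - h) = 0 := by
  by_contra hu
  obtain ⟨n1, hn1⟩ := hss.cov h
  obtain ⟨n2, hn2⟩ := hss.cov x
  obtain ⟨m', hm', hh', hx'⟩ : ∃ m', m < m' ∧ h ∈ S m' ∧ x ∈ S m' := by
    refine ⟨m + n1 + n2 + 1, by omega, ?_, ?_⟩
    · exact hss.mono (by omega) hn1
    · exact hss.mono (by omega) hn2
  have hem : e ∈ S m := hN.2.1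
  have hfm' : f ∈ S m' := hss.mono hm'.le hfm
  have hem' : e ∈ S m' := hss.mono hm'.le hem
  have := hss.ss m'
  let hS : S m' := ⟨h, hh'⟩
  let xS : S m' := ⟨x, hx'⟩
  let fS : S m' := ⟨f, hfm'⟩
  let w : S m' := fS - hS
  let uS : S m' := hS * xS * w
  have hwR : (w : R) = f - h := rfl
  have huS : uS ≠ 0 := by
    intro h0
    apply hu
    exact congrArg (fun z : S m' => (z : R)) h0
  obtain ⟨Q, hQ, huQ⟩ : ∃ Q : Ideal (S m'), IsCoatom Q ∧ uS ∉ Q := by
    by_contra hcon
    push Not at hcon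
    apply huS
    have h2 : uS ∈ Module.jacobson (S m') (S m') := by
      rw [Module.jacobson, Submodule.mem_sInf]
      intro P hP
      exact hcon P hP
    rw [IsSemisimpleModule.jacobson_eq_bot (S m') (S m')] at h2
    exact (Submodule.mem_bot (S m')).1 h2
  let F : S m' →ₗ[S m'] S m' := LinearMap.toSpanSingleton (S m') (S m') w
  have hF : ∀ a : S m', F a = a * w := fun a => rfl
  let L' : Ideal (S m') := Submodule.comap F Q
  have hL' : ∀ a : S m', a ∈ L' ↔ a * w ∈ Q := fun a => Iff.rfl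
  have hwQ : w ∉ Q := fun hw => huQ (Q.mul_mem_left (hS * xS) hw)
  have hL'top : L' ≠ ⊤ := by
    intro ht
    have h1 : (1 : S m') ∈ L' := by rw [ht]; trivial
    rw [hL', one_mul] at h1
    exact hwQ h1
  have hL'max : L'.IsMaximal := by
    rcases Submodule.isCoatom_comap_or_eq_top F hQ with h1 | h1
    · exact ⟨h1⟩
    · exact absurd h1 hL'top
  have hkey : ∀ a : S m', (a : R) * (f - h) = 0 → a ∈ L' := by
    intro a ha
    rw [hL']
    have h1 : a * w = 0 := Subtype.ext ha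
    rw [h1]
    exact Q.zero_mem
  have heh : e * h = h := by rw [← hfh, ← mul_assoc, hef]
  have hLh : ∀ a ∈ L, (a : R) * h = 0 := by
    intro a ha
    rw [← hfh, ← mul_assoc, hLf a ha, zero_mul]
  apply hB
  refine ⟨m', L', hm', ⟨hL'max, hem', 1 - ⟨e, hem'⟩, ?_, rfl⟩, ?_, h * x,
    (S m').mul_mem hh' hx', ?_, ?_⟩
  · apply hkey
    show (1 - e) * (f - h) = 0
    rw [sub_mul, one_mul, mul_sub, hef, heh, sub_self]
  · intro a ha
    refine ⟨⟨a, hss.mono hm'.le a.2⟩, ?_, rfl⟩
    apply hkey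
    show (a : R) * (f - h) = 0
    rw [mul_sub, hLf a ha, hLh a ha, sub_self]
  · intro a ha
    refine ⟨⟨(a : R) * (h * x), (S m').mul_mem (hss.mono hm'.le a.2)
      ((S m').mul_mem hh' hx')⟩, ?_, rfl⟩
    apply hkey
    show (a : R) * (h * x) * (f - h) = 0
    rw [← mul_assoc, hLh a ha, zero_mul, zero_mul]
  · refine ⟨hS, ?_, ?_⟩
    · apply hkey
      show h * (f - h) = 0
      rw [mul_sub, hhf, hhh, sub_self]
    · intro a' ha' heq
      apply huQ
      rw [hL'] at ha'
      have h1 : a' * w = uS := by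
        apply Subtype.ext
        show (a' : R) * (f - h) = h * x * (f - h)
        rw [heq]
        show h * (h * x) * (f - h) = h * x * (f - h)
        rw [← mul_assoc h h x, hhh]
      rw [← h1]
      exact ha'

theorem TRE (hREG : REG_stmt.{u}) (hSIM : SIM_stmt.{u}) : TRE_stmt.{u} := by
  intro R _ S hss e he he0 hcor m L hN hB
  obtain ⟨f, hff, hef, hfe, hf0, hfm, hLf⟩ := TRE_idem S hss e he m L hN
  obtain ⟨r, hc0, hcs⟩ := hcor f hff hef hfe hf0
  obtain ⟨c, hc⟩ : ∃ c, c = f * r * f := ⟨_, rfl⟩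
  rw [← hc] at hc0 hcs
  obtain ⟨t, ht⟩ := hREG R S hss c
  have hfc : f * c = c := by
    rw [hc, ← mul_assoc, ← mul_assoc, hff]
  have hcf : c * f = c := by
    rw [hc, mul_assoc, hff]
  obtain ⟨h, hh⟩ : ∃ h, h = f * t * c := ⟨_, rfl⟩
  have hch : c * h = c := by
    rw [hh, ← mul_assoc, ← mul_assoc, hcf, ht]
  have hhh : h * h = h := by
    calc h * h = f * t * (c * h) := by rw [hh]; noncomm_ring
      _ = h := by rw [hch, hh]
  have hhf : h * f = h := by
    rw [hh, mul_assoc, hcf]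
  have hfh : f * h = h := by
    rw [hh, ← mul_assoc, ← mul_assoc, hff]
  have hh0 : h ≠ 0 := by
    intro h0
    apply hc0
    rw [← hch, h0, mul_zero]
  have hhne : f - h ≠ 0 := by
    intro h0
    exact hcs (f * t) (by rw [← hh]; exact (sub_eq_zero.1 h0).symm)
  have hgg : (f - h) * (f - h) = f - h := by
    rw [sub_mul, mul_sub, mul_sub, hff, hfh, hhf, hhh, sub_self, sub_zero]
  have heh : e * h = h := by rw [← hfh, ← mul_assoc, hef]
  have heg : e * (f - h) = f - h := by rw [mul_sub, hef, heh]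
  have hzero : ∀ x : R, h * x * (f - h) = 0 := fun x =>
    TRE_zero S hss e m L hN hB f hef hfm hLf h x hhf hfh hhh
  obtain ⟨T₁, _, _, hT₁, t₁, ht₁0, ht₁⟩ := hSIM R h hhh hh0
  obtain ⟨T₂, _, _, hT₂, t₂, ht₂0, ht₂⟩ := hSIM R (f - h) hgg hhne
  refine ⟨T₁, _, _, T₂, _, _, hT₁, hT₂, ⟨t₁, ?_⟩, ⟨t₂, ?_⟩, ?_⟩
  · rw [← ht₁, ← mul_smul, heh, ht₁]
    exact ht₁0
  · rw [← ht₂, ← mul_smul, heg, ht₂]
    exact ht₂0
  · rintro ⟨φ⟩
    have hs0 : φ.symm t₂ ≠ 0 := by
      intro h0
      exact ht₂0 (by rw [← φ.apply_symm_apply t₂, h0, map_zero])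
    obtain ⟨x, hx⟩ := IsSimpleModule.toSpanSingleton_surjective R hs0 t₁
    have hx' : x • φ.symm t₂ = t₁ := hx
    have hs : (f - h) • φ.symm t₂ = φ.symm t₂ := by
      rw [← map_smul, ht₂]
    apply ht₁0
    rw [← ht₁, ← hx', ← hs, ← mul_smul, ← mul_smul, hzero, zero_smul]

end Pool.Agent.helper43.ZI
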